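import Mathlib
import Pool.Agent.W307.RS.Stm
import Pool.Agent.W230.RT.Avg2

/-!
# TRS-AVG2S: assembly of the average over coprime pairs of a short square
-/

namespace Pool.Agent.W782.RS

open Finset Pool.Agent.W262.RK Pool.Agent.W307.RT Pool.Agent.W307.RS

variable {J : Type} [Fintype J] [DecidableEq J]

/-- a prime greater than `z` divides at most one value -/
lemma gd_fvZ {α β : J → ℤ} {z : ℕ} (hB : Bg α β z) {u v : ℤ} (huv : IsCoprime u v)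
    (h0 : ∀ j, fv α β u v j ≠ 0) : Gd z (fv α β u v) := by
  refine ⟨h0, fun p hp hzp j l hjl h => ?_⟩
  have hpi : Prime (p : ℤ) := Nat.prime_iff_prime_int.1 hp
  have hres := (hB.2 p hp hzp).2 j l hjl
  obtain ⟨h1, h2⟩ := h
  unfold fv at h1 h2
  have e1 : (p : ℤ) ∣ Res α β j l * v := by
    have h3 : Res α β j l * v = α j * (α l * u + β l * v) - α l * (α j * u + β j * v) := by
      unfold Res; ring
    rw [h3]
    exact dvd_sub (Dvd.dvd.mul_left h2 _) (Dvd.dvd.mul_left h1 _)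
  have e2 : (p : ℤ) ∣ Res α β j l * u := by
    have h3 : Res α β j l * u = β l * (α j * u + β j * v) - β j * (α l * u + β l * v) := by
      unfold Res; ring
    rw [h3]
    exact dvd_sub (Dvd.dvd.mul_left h1 _) (Dvd.dvd.mul_left h2 _)
  have h4 : (p : ℤ) ∣ v := by
    rcases hpi.dvd_or_dvd e1 with h | h
    · exact absurd h hres
    · exact h
  have h5 : (p : ℤ) ∣ u := by
    rcases hpi.dvd_or_dvd e2 with h | h
    · exact absurd h hres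
    · exact h
  exact hpi.not_isUnit (huv.isUnit_of_dvd' h5 h4)

/-- the parameters -/
def Th (B : ℕ) : Type :=
  {θ : ℤ × ℤ × ℕ // 1 ≤ θ.2.2 ∧ θ.1.natAbs ≤ θ.2.2 ^ B ∧ θ.2.1.natAbs ≤ θ.2.2 ^ B}

open Classical in
/-- the pairs -/
noncomputable def TS (α β : J → ℤ) (N1 N2 : ℤ) (X : ℕ) : Finset (ℕ × ℕ) :=
  (Icc 1 X ×ˢ Icc 1 X).filter (fun t : ℕ × ℕ =>
      IsCoprime (N1 + (t.1 : ℤ)) (N2 + (t.2 : ℤ)) ∧
      ∀ j, fv α β (N1 + (t.1 : ℤ)) (N2 + (t.2 : ℤ)) j ≠ 0)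

/-- the summand -/
noncomputable def RR (cls : J → Fin 4) (a : Fin 3 → ℤ) (μ : J → ℕ) (α β : J → ℤ) (N1 N2 : ℤ)
    (t : ℕ × ℕ) : ℝ :=
  (2 : ℝ) ^ Module.finrank ℤ
      (EAB (FM cls a μ (fv α β (N1 + (t.1 : ℤ)) (N2 + (t.2 : ℤ))) 0)
        (FM cls a μ (fv α β (N1 + (t.1 : ℤ)) (N2 + (t.2 : ℤ))) 1)).toAffine.Point

lemma RR_nonneg (cls : J → Fin 4) (a : Fin 3 → ℤ) (μ : J → ℕ) (α β : J → ℤ) (N1 N2 : ℤ)
    (t : ℕ × ℕ) : 0 ≤ RR cls a μ α β N1 N2 t := by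
  unfold RR
  positivity

/-- the small scales -/
lemma small (R : ℤ → ℤ → ℕ → ℝ) (hR : ∀ N1 N2 X, 0 ≤ R N1 N2 X) (B X0 : ℕ) :
    ∃ D : ℝ, 0 ≤ D ∧ ∀ (N1 N2 : ℤ) (X : ℕ), 1 ≤ X → X ≤ X0 → N1.natAbs ≤ X ^ B →
      N2.natAbs ≤ X ^ B → R N1 N2 X ≤ D := by
  refine ⟨∑ N1 ∈ Icc (-((X0 ^ B : ℕ) : ℤ)) ((X0 ^ B : ℕ) : ℤ),
    ∑ N2 ∈ Icc (-((X0 ^ B : ℕ) : ℤ)) ((X0 ^ B : ℕ) : ℤ), ∑ X ∈ Icc 1 X0, R N1 N2 X,
    sum_nonneg fun _ _ => sum_nonneg fun _ _ => sum_nonneg fun _ _ => hR _ _ _, ?_⟩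
  intro N1 N2 X h1 h2 h3 h4
  have hXB : X ^ B ≤ X0 ^ B := Nat.pow_le_pow_left h2 B
  have m1 : N1 ∈ Icc (-((X0 ^ B : ℕ) : ℤ)) ((X0 ^ B : ℕ) : ℤ) := by
    rw [mem_Icc]; omega
  have m2 : N2 ∈ Icc (-((X0 ^ B : ℕ) : ℤ)) ((X0 ^ B : ℕ) : ℤ) := by
    rw [mem_Icc]; omega
  have m3 : X ∈ Icc 1 X0 := mem_Icc.mpr ⟨h1, h2⟩
  calc R N1 N2 X ≤ ∑ X ∈ Icc 1 X0, R N1 N2 X :=
        single_le_sum (f := fun X => R N1 N2 X) (fun _ _ => hR _ _ _) m3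
    _ ≤ ∑ N2 ∈ Icc (-((X0 ^ B : ℕ) : ℤ)) ((X0 ^ B : ℕ) : ℤ), ∑ X ∈ Icc 1 X0, R N1 N2 X :=
        single_le_sum (f := fun N2 => ∑ X ∈ Icc 1 X0, R N1 N2 X)
          (fun _ _ => sum_nonneg fun _ _ => hR _ _ _) m2
    _ ≤ _ := single_le_sum (f := fun N1 => ∑ N2 ∈ Icc (-((X0 ^ B : ℕ) : ℤ)) ((X0 ^ B : ℕ) : ℤ),
          ∑ X ∈ Icc 1 X0, R N1 N2 X)
          (fun _ _ => sum_nonneg fun _ _ => sum_nonneg fun _ _ => hR _ _ _) m1

/-- TRS-AVG2S -/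
theorem avg2s_of (hrank : RANK2B) (hcnt : CNT2S) (hant : ANTU) : AVG2S := by
  intro J _ _ cls a μ α β hcls ha hμ hα hR hev hodd hF hsum B
  classical
  obtain ⟨z0, hz0⟩ := hsum
  set N := Fintype.card J with hN
  set κ : J → Fin 3 → ℤ := fun j _ => kapM cls a μ α β j with hκdef
  set z : ℕ := z0 + (2 * N + 2) + ∑ k, (a k).natAbs + ∑ j, (α j).natAbs +
    ∑ j, ∑ l, (Res α β j l).natAbs + ∑ j, (kapM cls a μ α β j).natAbs with hz
  have hB : Bg α β z := by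
    refine ⟨by omega, fun p hp hzp => ⟨fun j h => ?_, fun j l hjl h => ?_⟩⟩
    · have h1 := Nat.le_of_dvd (Int.natAbs_pos.2 (hα j)) (Int.natCast_dvd.1 h)
      have h2 := single_le_sum (f := fun j => (α j).natAbs) (fun _ _ => Nat.zero_le _) (mem_univ j)
      omega
    · have h1 := Nat.le_of_dvd (Int.natAbs_pos.2 (hR j l hjl)) (Int.natCast_dvd.1 h)
      have h2 := single_le_sum (f := fun l => (Res α β j l).natAbs) (fun _ _ => Nat.zero_le _)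
        (mem_univ l)
      have h3 := single_le_sum (f := fun j => ∑ l, (Res α β j l).natAbs) (fun _ _ => Nat.zero_le _)
        (mem_univ j)
      omega
  have hpa : ∀ p : ℕ, p.Prime → z < p → ∀ k, ¬ (p : ℤ) ∣ a k := by
    intro p hp hzp k h
    have h1 := Nat.le_of_dvd (Int.natAbs_pos.2 (ha k)) (Int.natCast_dvd.1 h)
    have h2 := single_le_sum (f := fun k => (a k).natAbs) (fun _ _ => Nat.zero_le _) (mem_univ k)
    omega
  have hκ0 : ∀ j, kapM cls a μ α β j ≠ 0 := Pool.Agent.W230.RT.kapM_ne ha hR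
  have hκz : ∀ j, (kapM cls a μ α β j).natAbs ≤ z := by
    intro j
    have h2 := single_le_sum (f := fun j => (kapM cls a μ α β j).natAbs)
      (fun _ _ => Nat.zero_le _) (mem_univ j)
    omega
  have hz2 : 2 ≤ z := by omega
  obtain ⟨C', hC'⟩ := hz0 z (by omega)
  obtain ⟨C, K, y0, hC0, hK1, hcn⟩ := hcnt J α β z B hB
  have hsubb : SUBB := Pool.Agent.W125.RK2.subb_of Pool.Agent.W125.RK2.sub4
    Pool.Agent.W342.RK2.xcl
  set y1 : ℕ := y0 + 2 * ∑ j, ((α j).natAbs + (β j).natAbs) + 1 with hy1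
  have key := hant J (ℕ × ℕ) (Th B) (fun θ => TS α β θ.1.1 θ.1.2.1 θ.1.2.2)
    (fun θ => θ.1.2.2)
    (fun θ t => fv α β (θ.1.1 + (t.1 : ℤ)) (θ.1.2.1 + (t.2 : ℤ)))
    (fun θ => (θ.1.2.2 : ℝ) ^ 2) z (NB cls κ)
    (fun θ t => RR cls a μ α β θ.1.1 θ.1.2.1 t) 4
    (C * 4 ^ (z + 2)) C' ((4 ^ (B + 2)) ^ N) K y1 (by omega) (fun θ => θ.2.1)
    (fun θ => by positivity) (fun X0 => ?_)
    (fun θ ω hω => ?_) (fun s => ?_) (fun θ t => RR_nonneg _ _ _ _ _ _ _ _) (by norm_num)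
    (by positivity)
    (one_le_pow₀ (one_le_pow₀ (by norm_num))) hK1
    (fun y hy s e hse => hsubb J cls κ z y hz2 (fun j _ => hκ0 j) (fun j _ => hκz j) s e hse)
    hC' ?_
  · obtain ⟨C2, hC2⟩ := key
    refine ⟨C2, fun N1 N2 X hX h1 h2 => ?_⟩
    have h3 := hC2 ⟨(N1, N2, X), hX, h1, h2⟩
    have e : TS α β N1 N2 X = (Icc 1 X ×ˢ Icc 1 X).filter (fun t : ℕ × ℕ =>
      IsCoprime (N1 + (t.1 : ℤ)) (N2 + (t.2 : ℤ)) ∧
      ∀ j, fv α β (N1 + (t.1 : ℤ)) (N2 + (t.2 : ℤ)) j ≠ 0) := by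
      unfold TS
      congr
    rw [← e]
    exact h3
  · obtain ⟨D, hD0, hD⟩ := small
      (fun N1 N2 X => ∑ t ∈ TS α β N1 N2 X, RR cls a μ α β N1 N2 t)
      (fun _ _ _ => sum_nonneg fun _ _ => RR_nonneg _ _ _ _ _ _ _ _) B X0
    refine ⟨D, fun θ hθ => ?_⟩
    refine (hD θ.1.1 θ.1.2.1 θ.1.2.2 θ.2.1 hθ θ.2.2.1 θ.2.2.2).trans ?_
    have h1 : (1 : ℝ) ≤ (θ.1.2.2 : ℝ) ^ 2 := one_le_pow₀ (by exact_mod_cast θ.2.1)
    exact le_mul_of_one_le_right hD0 h1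
  · simp only [TS, mem_filter] at hω
    exact gd_fvZ hB hω.2.1 hω.2.2
  · unfold NB
    exact mul_nonneg (by positivity) (sum_nonneg fun _ _ => Nat.cast_nonneg _)
  rintro ⟨⟨N1, N2, X⟩, hX1, hN1, hN2⟩ y Y k hy0 hzy hyK hk s hs v hv u hu h8 T' hT' hT2
  simp only at hX1 hN1 hN2 hyK hk h8 hT' hT2 ⊢
  have hy00 : y0 ≤ y := by omega
  have hyX : y ≤ X := le_trans (Nat.le_self_pow (by omega) y) hyK
  set g : ℝ := (NL (∏ j, s j) (LLs cls κ s ∅) : ℝ) with hg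
  have hg0 : 0 ≤ g := Nat.cast_nonneg _
  have h1 : ∀ t ∈ T', RR cls a μ α β N1 N2 t ≤
      4 ^ (z + 2) * ((4 ^ (B + 2)) ^ N) ^ k * 4 ^ (∑ j, (v j).primeFactors.card) * g := by
    intro t ht
    have ht1 := hT' ht
    simp only [TS, mem_filter, mem_product, mem_Icc] at ht1
    obtain ⟨hts, htv, _⟩ := hT2 t ht
    have hr := hrank J cls a μ α β z (B + 2) hcls ha hμ hB hpa hev hκ0 hκz hodd hF X y k
      (N1 + (t.1 : ℤ)) (N2 + (t.2 : ℤ)) ht1.2.1 ht1.2.2 (fun j => by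
        unfold fv
        have h3 := Int.natAbs_add_le (α j * (N1 + (t.1 : ℤ))) (β j * (N2 + (t.2 : ℤ)))
        rw [Int.natAbs_mul, Int.natAbs_mul] at h3
        have h4 := single_le_sum (f := fun j => (α j).natAbs + (β j).natAbs)
          (fun _ _ => Nat.zero_le _) (mem_univ j)
        have h5 : (N1 + (t.1 : ℤ)).natAbs ≤ X ^ B + X := by
          have h51 : t.1 ≤ X := ht1.1.1.2
          omega
        have h5' : (N2 + (t.2 : ℤ)).natAbs ≤ X ^ B + X := by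
          have h51 : t.2 ≤ X := ht1.1.2.2
          omega
        have h6 : 2 * ((α j).natAbs + (β j).natAbs) ≤ X := by
          have h4' : (α j).natAbs + (β j).natAbs ≤ ∑ j, ((α j).natAbs + (β j).natAbs) := h4
          have h8' : y0 + 2 * ∑ j, ((α j).natAbs + (β j).natAbs) + 1 ≤ X := le_trans hy0 hyX
          generalize (∑ j, ((α j).natAbs + (β j).natAbs)) = sg at h4' h8'
          omega
        have h7 : X ^ B + X ≤ 2 * X ^ (B + 1) := by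
          have h71 : X ^ B ≤ X ^ (B + 1) := Nat.pow_le_pow_right hX1 (by omega)
          have h72 : X ≤ X ^ (B + 1) := Nat.le_self_pow (by omega) X
          generalize X ^ (B + 1) = e1 at h71 h72 ⊢
          generalize X ^ B = e2 at h71 ⊢
          omega
        calc (α j * (N1 + (t.1 : ℤ)) + β j * (N2 + (t.2 : ℤ))).natAbs
            ≤ (α j).natAbs * (N1 + (t.1 : ℤ)).natAbs + (β j).natAbs * (N2 + (t.2 : ℤ)).natAbs := h3
          _ ≤ (α j).natAbs * (X ^ B + X) + (β j).natAbs * (X ^ B + X) :=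
              add_le_add (Nat.mul_le_mul_left _ h5) (Nat.mul_le_mul_left _ h5')
          _ = ((α j).natAbs + (β j).natAbs) * (X ^ B + X) := by ring
          _ ≤ ((α j).natAbs + (β j).natAbs) * (2 * X ^ (B + 1)) := Nat.mul_le_mul_left _ h7
          _ = 2 * ((α j).natAbs + (β j).natAbs) * X ^ (B + 1) := by ring
          _ ≤ X * X ^ (B + 1) := Nat.mul_le_mul_right _ h6
          _ = X ^ (B + 2) := by ring) hX1 (by omega) hk
    have hts' : S1 z y (fv α β (N1 + (t.1 : ℤ)) (N2 + (t.2 : ℤ))) = s := hts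
    have htv' : S2 z y (fv α β (N1 + (t.1 : ℤ)) (N2 + (t.2 : ℤ))) = v := htv
    rw [hts', htv'] at hr
    unfold RR
    rw [hg, hN]
    exact_mod_cast hr
  set Q : ℝ := C * X ^ 2 * (∏ j, gw 1 N (s j)) *
        (∏ j, gw 1 N (v j) / v j) * (∏ j, 1 / (u j : ℝ)) / (Real.log y) ^ N with hQ
  have h3 : (T'.card : ℝ) ≤ Q := by
    refine le_trans ?_ (hcn N1 N2 X y Y hN1 hN2 hy00 hzy hyK s hs v hv u hu h8)
    have h4 : T' ⊆ (Icc 1 X ×ˢ Icc 1 X).filter (fun t : ℕ × ℕ =>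
        IsCoprime (N1 + (t.1 : ℤ)) (N2 + (t.2 : ℤ)) ∧
        S1 z y (fv α β (N1 + (t.1 : ℤ)) (N2 + (t.2 : ℤ))) = s ∧
        S2 z y (fv α β (N1 + (t.1 : ℤ)) (N2 + (t.2 : ℤ))) = v ∧
        ∀ j, (u j : ℤ) ∣ fv α β (N1 + (t.1 : ℤ)) (N2 + (t.2 : ℤ)) j) := by
      intro t ht
      have ht1 := hT' ht
      simp only [TS, mem_filter] at ht1
      rw [mem_filter]
      exact ⟨ht1.1, ht1.2.1, (hT2 t ht).1, (hT2 t ht).2.1, (hT2 t ht).2.2⟩
    exact_mod_cast card_le_card h4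
  calc ∑ t ∈ T', RR cls a μ α β N1 N2 t
      ≤ ∑ _t ∈ T', (4 : ℝ) ^ (z + 2) * ((4 ^ (B + 2)) ^ N) ^ k *
          4 ^ (∑ j, (v j).primeFactors.card) * g := sum_le_sum h1
    _ = (T'.card : ℝ) *
          (4 ^ (z + 2) * ((4 ^ (B + 2)) ^ N) ^ k * 4 ^ (∑ j, (v j).primeFactors.card) * g) := by
        rw [sum_const, nsmul_eq_mul]
    _ ≤ Q * (4 ^ (z + 2) * ((4 ^ (B + 2)) ^ N) ^ k *
          4 ^ (∑ j, (v j).primeFactors.card) * g) :=
        mul_le_mul_of_nonneg_right h3 (by positivity)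
    _ = _ := by
        have e1 : NB cls κ s = g := Pool.Agent.W230.RT.nb_eq hcls κ s
        have e2 : (∏ j, (4 : ℝ) ^ (v j).primeFactors.card * (gw 1 N (v j) / v j)) =
            4 ^ (∑ j, (v j).primeFactors.card) * ∏ j, (gw 1 N (v j) / v j) := by
          rw [prod_mul_distrib, prod_pow_eq_pow_sum]
        rw [e1, e2, hQ]
        ring

end Pool.Agent.W782.RS
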